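import Pool.Agent.H93.GT.Targets
import Pool.Agent.H18.SC.PCE

/-!
Row GPE: the pieces as elements of `L¹`.
-/

set_option autoImplicit false

open Pool.Agent.H93.GT Pool.Agent.H87.Synth Pool.Agent.H85.SC Finset
open Pool.Agent.H93.ET (sg jj iE iA T_KKL T_CUT T_BRK T_SER T_CRI)

namespace Pool.Agent.H80.GT

theorem gpe (h1 : T_GVL) (h2 : T_GAM) (h3 : T_MUL) : T_GPE := by
  intro d P n i _
  obtain ⟨-, -, -, hK, -⟩ := h1 d P
  obtain ⟨hlr, -, -, -, -, hchi⟩ := h2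
  obtain ⟨-, -, hadd, hsub, hmul, -, -, hact, -, -⟩ := h3
  obtain ⟨K, hKn, hKc⟩ := (hK (slot n i)).1
  obtain ⟨K', hKn', hKc'⟩ := (hK (slot n i - 1)).1
  obtain ⟨K'', hKn'', hKc''⟩ := (hK (ps n i - 1)).1
  set m := lvl n i with hm
  have hs0 := Pool.Agent.H18.SC.sqrt_pr_le m 0 3 (by norm_num) (by norm_num)
  have hs1 := Pool.Agent.H18.SC.sqrt_pr_le m 1 4 (by norm_num) (by norm_num)
  have hs2 := Pool.Agent.H18.SC.sqrt_pr_le m 2 6 (by norm_num) (by norm_num)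
  have hp : ‖K + K'‖ ≤ 4 := (norm_add_le _ _).trans (by linarith)
  have hq : ‖K - K'‖ ≤ 4 := (norm_sub_le _ _).trans (by linarith)
  have hq' : ‖K - K''‖ ≤ 4 := (norm_sub_le _ _).trans (by linarith)
  have f3 : ‖((1 / 2 : ℂ) ^ m)‖ = (1 / 2) ^ m := by rw [norm_pow]; norm_num
  constructor
  · have key : ∀ (Q : ℤ → Prop), MulB (ind Q) 1 → ∀ G : L1, ‖G‖ ≤ 4 → ∀ s : ℤ, s = 1 ∨ s = -1 →
        ∃ x : L1, ‖x‖ ≤ 20 * (3 / 4) ^ m ∧ ∀ z, coeff x z = (1 / 2) ^ m *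
          (ind Q z * (((chi m 0 z : ℂ) + chi m 1 z) / 4 * coeff G z +
            (s : ℂ) * (chi m 2 z : ℂ) / 2 *
              ((P.VG (slot n i) z : ℂ) - P.VG (slot n i - 1) z))) := by
      intro Q hQ G hG s hs
      have hA := hmul _ _ _ _ hQ (hadd _ _ _ _ (hchi m 0) (hchi m 1))
      have hB := hmul _ _ _ _ hQ (hchi m 2)
      obtain ⟨x1, hx1, hx1n⟩ := hact _ _ hA G
      obtain ⟨x2, hx2, hx2n⟩ := hact _ _ hB (K - K')
      have hsn : ‖(s : ℂ)‖ = 1 := by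
        rcases hs with h | h <;> simp [h]
      refine ⟨((1 / 2 : ℂ) ^ m) • ((1 / 4 : ℂ) • x1 + ((s : ℂ) / 2) • x2), ?_, ?_⟩
      · have e1 : ‖x1‖ ≤ 28 * (3 / 2) ^ m := by
          refine hx1n.trans ?_
          have : 0 ≤ 1 * (Real.sqrt (pr m 0) + Real.sqrt (pr m 1)) := by positivity
          calc 1 * (Real.sqrt (pr m 0) + Real.sqrt (pr m 1)) * ‖G‖
              ≤ 1 * (Real.sqrt (pr m 0) + Real.sqrt (pr m 1)) * 4 :=
                mul_le_mul_of_nonneg_left hG this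
            _ ≤ _ := by linarith
        have e2 : ‖x2‖ ≤ 24 * (3 / 2) ^ m := by
          refine hx2n.trans ?_
          have : 0 ≤ 1 * Real.sqrt (pr m 2) := by positivity
          calc 1 * Real.sqrt (pr m 2) * ‖K - K'‖
              ≤ 1 * Real.sqrt (pr m 2) * 4 := mul_le_mul_of_nonneg_left hq this
            _ ≤ _ := by linarith
        have e3 : ‖(1 / 4 : ℂ) • x1 + ((s : ℂ) / 2) • x2‖ ≤ 19 * (3 / 2) ^ m := by
          refine (norm_add_le _ _).trans ?_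
          rw [norm_smul, norm_smul]
          have f1 : ‖(1 / 4 : ℂ)‖ = 1 / 4 := by norm_num
          have f2 : ‖((s : ℂ) / 2)‖ = 1 / 2 := by rw [norm_div, hsn]; norm_num
          rw [f1, f2]
          linarith
        rw [norm_smul, f3]
        have hpos : (0 : ℝ) ≤ (1 / 2) ^ m := by positivity
        calc (1 / 2 : ℝ) ^ m * ‖(1 / 4 : ℂ) • x1 + ((s : ℂ) / 2) • x2‖
            ≤ (1 / 2 : ℝ) ^ m * (19 * (3 / 2) ^ m) := mul_le_mul_of_nonneg_left e3 hpos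
          _ = 19 * (3 / 4) ^ m := by
              rw [mul_left_comm, ← mul_pow]; norm_num
          _ ≤ 20 * (3 / 4) ^ m := by
              have : (0 : ℝ) ≤ (3 / 4) ^ m := by positivity
              linarith
      · intro z
        have c1 : coeff x1 z = ind Q z * ((chi m 0 z : ℂ) + chi m 1 z) * coeff G z := hx1 z
        have c2 : coeff x2 z = ind Q z * (chi m 2 z : ℂ) * coeff (K - K') z := hx2 z
        rw [coeff_smul, coeff_add, coeff_smul, coeff_smul, c1, c2, coeff_sub, hKc, hKc']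
        ring
    have hsign : ((-1) ^ lg i : ℤ) = 1 ∨ ((-1) ^ lg i : ℤ) = -1 := neg_one_pow_eq_or ℤ _
    by_cases hi : i = 2 ^ lg i
    · obtain ⟨x, hx, hxc⟩ := key _ (hlr 1 n 4) (K + K') hp _ hsign
      refine ⟨x, hx, fun z => ?_⟩
      rw [hxc z, Pos.pmg, if_pos hi, coeff_add, hKc, hKc', ← hm]
      push_cast
      ring
    · obtain ⟨x, hx, hxc⟩ := key _ (hlr 3 n 4) (K - K') hq _ hsign
      refine ⟨x, hx, fun z => ?_⟩
      rw [hxc z, Pos.pmg, if_neg hi, coeff_sub, hKc, hKc', ← hm]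
      push_cast
      ring
  · have key : ∀ x1 : L1, ‖x1‖ ≤ 8 → ‖((1 / 2 : ℂ) ^ m) • x1‖ ≤ 10 * (3 / 4) ^ m := by
      intro x1 hx1
      rw [norm_smul, f3]
      have hpos : (0 : ℝ) ≤ (1 / 2) ^ m := by positivity
      have h4 : (1 / 2 : ℝ) ^ m ≤ (3 / 4) ^ m := pow_le_pow_left₀ (by norm_num) (by norm_num) _
      calc (1 / 2 : ℝ) ^ m * ‖x1‖ ≤ (1 / 2) ^ m * 8 := mul_le_mul_of_nonneg_left hx1 hpos
        _ ≤ 10 * (3 / 4) ^ m := by linarith
    have hdl : ∀ c e e', MulB (fun z => ind (lr c n e) z - ind (lr c n e') z) (1 + 1) :=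
      fun c e e' => hsub _ _ _ _ (hlr c n e) (hlr c n e')
    by_cases hi : i = 2 ^ lg i
    · obtain ⟨x1, hx1, hx1n⟩ := hact _ _ (hdl 1 (2 * ((lg i : ℤ) % 2)) (2 * ((lg i : ℤ) % 2) + 1)) K
      obtain ⟨x2, hx2, hx2n⟩ := hact _ _ (hdl 1 (2 * (((lg i : ℤ) + 1) % 2))
        (2 * (((lg i : ℤ) + 1) % 2) + 1)) K'
      refine ⟨((1 / 2 : ℂ) ^ m) • (x1 + x2), key _ ((norm_add_le _ _).trans (by linarith)),
        fun z => ?_⟩
      have c1 : coeff x1 z = (ind (lr 1 n (2 * ((lg i : ℤ) % 2))) z -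
        ind (lr 1 n (2 * ((lg i : ℤ) % 2) + 1)) z) * coeff K z := hx1 z
      have c2 : coeff x2 z = (ind (lr 1 n (2 * (((lg i : ℤ) + 1) % 2))) z -
        ind (lr 1 n (2 * (((lg i : ℤ) + 1) % 2) + 1)) z) * coeff K' z := hx2 z
      rw [coeff_smul, coeff_add, c1, c2, hKc, hKc', Pos.qmg, if_pos hi, ← hm]
    · obtain ⟨x1, hx1, hx1n⟩ := hact _ _ (hdl 3 (2 * ((i : ℤ) % 2)) (2 * ((i : ℤ) % 2) + 1)) (K - K'')
      refine ⟨((1 / 2 : ℂ) ^ m) • x1, key _ (hx1n.trans (by linarith)), fun z => ?_⟩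
      have c1 : coeff x1 z = (ind (lr 3 n (2 * ((i : ℤ) % 2))) z -
        ind (lr 3 n (2 * ((i : ℤ) % 2) + 1)) z) * coeff (K - K'') z := hx1 z
      rw [coeff_smul, c1, coeff_sub, hKc, hKc'', Pos.qmg, if_neg hi, ← hm]

end Pool.Agent.H80.GT
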