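import Pool.Agent.H93.GT.Targets
import Pool.Agent.H65.SC.TRP

/-!
Row GVL: the cut-offs.
-/

set_option autoImplicit false

open Pool.Agent.H93.GT Pool.Agent.H87.Synth Pool.Agent.H85.SC Finset
open Pool.Agent.H93.ET (sg jj iE iA T_KKL T_CUT T_BRK T_SER T_CRI)

namespace Pool.Agent.H80.GT

theorem trap_one (A B : ℕ) (hAB : A < B) (z : ℤ) (hz : |z| ≤ A) : trap A B z = 1 := by
  unfold trap
  have h1 : (|(z : ℝ)|) ≤ (A : ℝ) := by
    have : ((|z| : ℤ) : ℝ) ≤ ((A : ℤ) : ℝ) := by exact_mod_cast hz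
    push_cast at this
    exact this
  have h2 : (A : ℝ) < B := by exact_mod_cast hAB
  have h3 : (1 : ℝ) ≤ ((B : ℝ) - |(z : ℝ)|) / ((B : ℝ) - A) := by
    rw [le_div_iff₀ (by linarith)]
    linarith
  rw [min_eq_left h3, max_eq_right zero_le_one]

theorem trap_zero (A B : ℕ) (hAB : A < B) (z : ℤ) (hz : (B : ℤ) ≤ |z|) : trap A B z = 0 := by
  unfold trap
  have h1 : (B : ℝ) ≤ (|(z : ℝ)|) := by
    have : ((B : ℤ) : ℝ) ≤ ((|z| : ℤ) : ℝ) := by exact_mod_cast hz
    push_cast at this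
    exact this
  have h2 : (A : ℝ) < B := by exact_mod_cast hAB
  have h3 : ((B : ℝ) - |(z : ℝ)|) / ((B : ℝ) - A) ≤ 0 :=
    div_nonpos_of_nonpos_of_nonneg (by linarith) (by linarith)
  rw [max_eq_left ((min_le_right _ _).trans h3)]

theorem gvl (h1 : T_GSZ) (h2 : T_MUL) : T_GVL := by
  intro d P
  obtain ⟨hpos, hstep, -, hdiv, -, -⟩ := h1 d P
  have hA0 : ∀ r, 0 < 4 * P.X r := fun r => by have := hpos r; omega
  have hAB8 : ∀ r, 64 * (4 * P.X r) ≤ P.X (r + 1) / 4 := fun r => by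
    have := hstep r
    omega
  have hAB : ∀ r, 4 * P.X r < P.X (r + 1) / 4 := fun r => by
    have := hAB8 r
    have := hA0 r
    omega
  have k1 : ∀ (r : ℕ) (z : ℤ), |z| ≤ 4 * P.X r → P.VG r z = 1 := by
    intro r z hz
    apply trap_one _ _ (hAB r)
    push_cast
    exact hz
  have key : ∀ r, ∃ K : L1, ‖K‖ ≤ 2 ∧ ∀ z, coeff K z = P.VG r z := by
    intro r
    have hA0' := hA0 r
    have hAB1 := hAB8 r
    have hAB2 := hAB r
    have h4 : ∀ z, P.VG r z = trap (4 * P.X r) (P.X (r + 1) / 4) z := fun z => rfl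
    generalize 4 * P.X r = A at hA0' hAB1 hAB2 h4
    generalize P.X (r + 1) / 4 = B at hAB1 hAB2 h4
    have hA' : (0 : ℝ) < A := by exact_mod_cast hA0'
    have hAB' : 64 * (A : ℝ) ≤ B := by exact_mod_cast hAB1
    have hd : (0 : ℝ) < B - A := by linarith
    have hAc : (((A - 1 : ℕ) : ℝ)) + 1 = A := by
      rw [Nat.cast_sub hA0']; simp
    have hBc : (((B - 1 : ℕ) : ℝ)) + 1 = B := by
      rw [Nat.cast_sub (by omega : 1 ≤ B)]; simp
    refine ⟨((((B : ℝ) - A)⁻¹ : ℝ) : ℂ) • ((((B : ℝ)) : ℂ) • fejerK (B - 1) -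
      (((A : ℝ)) : ℂ) • fejerK (A - 1)), ?_, fun z => ?_⟩
    · rw [norm_smul, Complex.norm_real, norm_inv, Real.norm_of_nonneg hd.le]
      have h1 := norm_sub_le ((((B : ℝ)) : ℂ) • fejerK (B - 1)) ((((A : ℝ)) : ℂ) • fejerK (A - 1))
      rw [norm_smul, norm_smul, norm_fejerK, norm_fejerK, Complex.norm_real, Complex.norm_real,
        Real.norm_of_nonneg (by positivity), Real.norm_of_nonneg (by positivity), mul_one,
        mul_one] at h1
      rw [inv_mul_le_iff₀ hd]
      linarith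
    · rw [coeff_smul, coeff_sub, coeff_smul, coeff_smul, coeff_fejerK, coeff_fejerK, hAc, hBc]
      have h3 := Pool.Agent.H65.SC.trap_eq A B hA0' hAB2 z
      have h5 : (trap A B z : ℝ) = ((B : ℝ) - A)⁻¹ * ((B : ℝ) * max 0 (1 - |(z : ℝ)| / B) -
          A * max 0 (1 - |(z : ℝ)| / A)) := by
        rw [h3]
        field_simp
      rw [h4, h5]
      push_cast
      ring
  have hT : ∀ r, MulB (fun z => (P.VG r z : ℂ)) 2 := fun r => by
    obtain ⟨K, hK, hz⟩ := key r
    exact Pool.Agent.H65.SC.mulB_of_kernel K _ 2 hK hz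
  refine ⟨k1, ?_, ?_, fun r => ⟨key r, hT r⟩, ?_⟩
  · intro r z hz
    apply trap_zero _ _ (hAB r)
    have h3 := (hdiv (r + 1)).1
    have h4 : 4 * (P.X (r + 1) / 4) = P.X (r + 1) := Nat.mul_div_cancel' h3
    have h5 : (4 : ℤ) * ((P.X (r + 1) / 4 : ℕ) : ℤ) = P.X (r + 1) := by exact_mod_cast h4
    omega
  · intro r z
    show 0 ≤ trap _ _ z ∧ trap _ _ z ≤ 1
    unfold trap
    exact ⟨le_max_left _ _, max_le zero_le_one (min_le_left _ _)⟩
  · obtain ⟨-, -, -, -, -, -, -, -, -, huniq⟩ := h2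
    have hspan : ∀ p ∈ Submodule.span ℂ (Set.range ex), ∃ R : ℕ, ∀ r, R ≤ r → ∀ z,
        (P.VG r z : ℂ) * coeff p z = coeff p z := by
      intro p hp
      induction hp using Submodule.span_induction with
      | mem x hx =>
        obtain ⟨n, rfl⟩ := hx
        refine ⟨n.natAbs, fun r hr z => ?_⟩
        rw [coeff_ex]
        by_cases hnz : n = z
        · subst hnz
          rw [k1 r n ?_]
          · simp
          · have h1 := (hdiv r).2
            have h2 : |n| = (n.natAbs : ℤ) := Int.abs_eq_natAbs n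
            rw [h2]
            have h3 : (n.natAbs : ℤ) ≤ r := by exact_mod_cast hr
            have h4 : (r : ℤ) ≤ P.X r := by exact_mod_cast h1
            linarith
        · simp [hnz]
      | zero => exact ⟨0, fun r _ z => by simp [coeff_zero]⟩
      | add x y _ _ hx hy =>
        obtain ⟨R, hR⟩ := hx
        obtain ⟨R', hR'⟩ := hy
        refine ⟨max R R', fun r hr z => ?_⟩
        rw [coeff_add, mul_add, hR r (le_trans (le_max_left _ _) hr),
          hR' r (le_trans (le_max_right _ _) hr)]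
      | smul a x _ hx =>
        obtain ⟨R, hR⟩ := hx
        refine ⟨R, fun r hr z => ?_⟩
        rw [coeff_smul, mul_left_comm, hR r hr]
    intro f ε hε
    obtain ⟨p, hp, hfp⟩ := dense_span_ex f (ε / 4) (by positivity)
    obtain ⟨R, hR⟩ := hspan p hp
    refine ⟨R, fun r hr g hg => ?_⟩
    obtain ⟨T, hTc, hTb⟩ := hT r
    have h1 : T f = g := huniq _ f _ _ (fun z => hTc f z) hg
    have h2 : T p = p := huniq _ p _ _ (fun z => hTc p z) (fun z => (hR r hr z).symm)
    have h3 : g - f = T (f - p) - (f - p) := by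
      rw [map_sub, h1, h2]
      abel
    rw [h3]
    have h4 := norm_sub_le (T (f - p)) (f - p)
    have h5 := hTb (f - p)
    linarith

end Pool.Agent.H80.GT
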